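import Pool.Agent.H73.EC.Defs

/-!
# Couplings that increase the entropy
-/

set_option autoImplicit false

open Finset

namespace Pool.Agent.H73.EC

/-- increasing distribution on a union-closed family -/
def Inc (μ : Finset ℕ → ℝ) : Prop := ∀ S T, μ T ≠ 0 → μ S ≤ μ (S ∪ T)

lemma gib {p q : ℝ} (hp : 0 ≤ p) (hq : 0 < q) :
    -(p * Real.log p) ≤ -(p * Real.log q) + (q - p) := by
  rcases hp.eq_or_lt with h | h
  · rw [← h]
    simp [hq.le]
  · have h1 := Real.log_le_sub_one_of_pos (div_pos hq h)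
    rw [Real.log_div hq.ne' h.ne'] at h1
    have h2 := mul_le_mul_of_nonneg_left h1 h.le
    have h3 : p * (q / p - 1) = q - p := by field_simp
    rw [h3] at h2
    linarith

lemma gib' {p q : ℝ} (hp : 0 ≤ p) (hq : 0 ≤ q) (h : q = 0 → p = 0) :
    -(p * Real.log p) ≤ -(p * Real.log q) + (q - p) := by
  rcases hq.eq_or_lt with h1 | h1
  · have h2 := h h1.symm
    rw [h2, ← h1]
    simp
  · exact gib hp h1

lemma law_nonneg {Ω : Type} [Fintype Ω] {P : Ω → ℝ} (hP : ∀ ω, 0 ≤ P ω) (Z : Ω → Finset ℕ)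
    (S : Finset ℕ) : 0 ≤ law P Z S := Finset.sum_nonneg fun ω _ => hP ω

lemma le_law {Ω : Type} [Fintype Ω] {P : Ω → ℝ} (hP : ∀ ω, 0 ≤ P ω) (Z : Ω → Finset ℕ) (ω : Ω) :
    P ω ≤ law P Z (Z ω) :=
  Finset.single_le_sum (f := P) (fun ω _ => hP ω) (Finset.mem_filter.2 ⟨Finset.mem_univ _, rfl⟩)

lemma law_sum {Ω : Type} [Fintype Ω] {P : Ω → ℝ} {Z : Ω → Finset ℕ} {V : Finset ℕ}
    (h : ∀ ω, P ω ≠ 0 → Z ω ⊆ V) (φ : Finset ℕ → ℝ) :
    ∑ S ∈ V.powerset, law P Z S * φ S = ∑ ω, P ω * φ (Z ω) := by
  have e1 : ∀ S, law P Z S * φ S = ∑ ω, if Z ω = S then P ω * φ (Z ω) else 0 := by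
    intro S
    unfold law
    rw [Finset.sum_filter, Finset.sum_mul]
    refine Finset.sum_congr rfl fun ω _ => ?_
    by_cases h1 : Z ω = S
    · rw [if_pos h1, if_pos h1, h1]
    · rw [if_neg h1, if_neg h1, zero_mul]
  rw [Finset.sum_congr rfl fun S _ => e1 S, Finset.sum_comm]
  refine Finset.sum_congr rfl fun ω _ => ?_
  rw [Finset.sum_ite_eq V.powerset (Z ω) (fun _ => P ω * φ (Z ω))]
  by_cases h1 : Z ω ∈ V.powerset
  · rw [if_pos h1]
  · rw [if_neg h1]
    have h2 : P ω = 0 := by
      by_contra h3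
      exact h1 (Finset.mem_powerset.2 (h ω h3))
    rw [h2, zero_mul]

lemma le_one {V : Finset ℕ} {μ : Finset ℕ → ℝ} (hμ : Dist V μ) (S : Finset ℕ) : μ S ≤ 1 := by
  by_cases h : S ⊆ V
  · rw [← hμ.2.2]
    exact Finset.single_le_sum (f := μ) (fun T _ => hμ.1 T) (Finset.mem_powerset.2 h)
  · rw [hμ.2.1 S h]
    exact zero_le_one

lemma ent_nonneg {V : Finset ℕ} {μ : Finset ℕ → ℝ} (hμ : Dist V μ) : 0 ≤ ent V μ := by
  refine Finset.sum_nonneg fun S _ => ?_
  have h1 := Real.log_nonpos (hμ.1 S) (le_one hμ S)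
  have h2 := mul_nonneg (hμ.1 S) (neg_nonneg.2 h1)
  linarith

/-- No coupling of copies of an increasing distribution on a union-closed family increases the
entropy. -/
theorem no_gain {V : Finset ℕ} {μ : Finset ℕ → ℝ} (hμ : Dist V μ) (hI : Inc μ) (k : ℕ) :
    ¬ Gains V μ k := by
  rintro ⟨Ω, hΩ, P, X, hP0, hP1, hlaw, hlt⟩
  have hpos : ∀ ω, P ω ≠ 0 → ∀ i, μ (X i ω) ≠ 0 := by
    intro ω hω i h1
    have h2 := le_law hP0 (X i) ω
    rw [hlaw, h1] at h2
    exact hω (le_antisymm h2 (hP0 ω))
  have hXV : ∀ ω, P ω ≠ 0 → ∀ i, X i ω ⊆ V := by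
    intro ω hω i
    by_contra h1
    exact hpos ω hω i (hμ.2.1 _ h1)
  obtain ⟨Z, hZ⟩ : ∃ Z : Ω → Finset ℕ, Z = fun ω => Finset.univ.biUnion fun i => X i ω := ⟨_, rfl⟩
  rw [← hZ] at hlt
  have hZV : ∀ ω, P ω ≠ 0 → Z ω ⊆ V := by
    intro ω hω
    rw [hZ]
    exact Finset.biUnion_subset.2 fun i _ => hXV ω hω i
  have hν1 : ∑ S ∈ V.powerset, law P Z S = 1 := by
    have h1 := law_sum hZV (fun _ => 1)
    simp only [mul_one] at h1
    rw [h1, hP1]
  rcases k with _ | k
  · have h1 : ∀ ω, Z ω = ∅ := by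
      intro ω
      rw [hZ]
      simp
    have h2 : ent V (law P Z) = 0 := by
      refine Finset.sum_eq_zero fun S _ => ?_
      by_cases h3 : S = ∅
      · have h4 : law P Z S = 1 := by
          unfold law
          rw [h3, Finset.filter_true_of_mem fun ω _ => h1 ω, hP1]
        rw [h4]
        simp
      · have h4 : law P Z S = 0 := by
          unfold law
          rw [Finset.filter_false_of_mem fun ω _ h5 => h3 (h5.symm.trans (h1 ω)), Finset.sum_empty]
        rw [h4]
        simp
    rw [h2] at hlt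
    exact absurd (ent_nonneg hμ) (not_le.2 hlt)
  · have hmono : ∀ ω, P ω ≠ 0 → μ (X 0 ω) ≤ μ (Z ω) := by
      intro ω hω
      have h1 : ∀ s : Finset (Fin (k + 1)), μ (X 0 ω) ≤ μ (X 0 ω ∪ s.biUnion fun i => X i ω) := by
        intro s
        induction s using Finset.induction_on with
        | empty => simp
        | insert i s _ ih =>
          rw [Finset.biUnion_insert, Finset.union_comm (X i ω), ← Finset.union_assoc]
          exact ih.trans (hI _ _ (hpos ω hω i))
      have h2 : X 0 ω ∪ Finset.univ.biUnion (fun i => X i ω) = Z ω := by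
        rw [hZ]
        exact Finset.union_eq_right.2 (Finset.subset_biUnion_of_mem (fun i => X i ω)
          (Finset.mem_univ 0))
      rw [← h2]
      exact h1 _
    have hzero : ∀ S, μ S = 0 → law P Z S = 0 := by
      intro S hS
      unfold law
      refine Finset.sum_eq_zero fun ω hω => ?_
      by_contra h1
      have h2 := hmono ω h1
      rw [(Finset.mem_filter.1 hω).2, hS] at h2
      exact hpos ω h1 0 (le_antisymm h2 (hμ.1 _))
    have h1 : ent V (law P Z) ≤ ∑ S ∈ V.powerset, (-(law P Z S * Real.log (μ S)) +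
        (μ S - law P Z S)) :=
      Finset.sum_le_sum fun S _ => gib' (law_nonneg hP0 Z S) (hμ.1 S) (hzero S)
    rw [Finset.sum_add_distrib, Finset.sum_sub_distrib, hν1, hμ.2.2, sub_self, add_zero,
      Finset.sum_neg_distrib, law_sum hZV] at h1
    have h2 : ∑ ω, P ω * Real.log (μ (X 0 ω)) ≤ ∑ ω, P ω * Real.log (μ (Z ω)) := by
      refine Finset.sum_le_sum fun ω _ => ?_
      by_cases h3 : P ω = 0
      · rw [h3, zero_mul, zero_mul]
      · have h4 : 0 < μ (X 0 ω) := lt_of_le_of_ne (hμ.1 _) (hpos ω h3 0).symm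
        exact mul_le_mul_of_nonneg_left (Real.log_le_log h4 (hmono ω h3)) (hP0 ω)
    have h3 : ent V μ = -∑ ω, P ω * Real.log (μ (X 0 ω)) := by
      rw [← law_sum (fun ω hω => hXV ω hω 0) (fun S => Real.log (μ S)), ← Finset.sum_neg_distrib]
      refine Finset.sum_congr rfl fun S _ => ?_
      rw [hlaw]
    rw [h3] at hlt
    linarith

/-- The perturbation of the identity coupling. -/
lemma perturb {V : Finset ℕ} {μ : Finset ℕ → ℝ} (hμ : Dist V μ) {x y : Finset ℕ} (hxV : x ⊆ V)
    (hyV : y ⊆ V) (hxy : x ≠ y) {ε : ℝ} (h0 : 0 ≤ ε) (hx : ε ≤ μ x) (hy : ε ≤ μ y)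
    (hgt : ent V μ < ∑ S ∈ V.powerset, -((μ S - (if S = x then ε else 0) -
      (if S = y then ε else 0) + (if S = x ∪ y then 2 * ε else 0)) *
      Real.log (μ S - (if S = x then ε else 0) -
      (if S = y then ε else 0) + (if S = x ∪ y then 2 * ε else 0)))) : Gains V μ 2 := by
  classical
  obtain ⟨P, hP⟩ : ∃ P : ({S // S ∈ V.powerset} ⊕ Bool) → ℝ, P = Sum.elim
    (fun S => μ S.1 - (if S.1 = x then ε else 0) - (if S.1 = y then ε else 0)) (fun _ => ε) :=
    ⟨_, rfl⟩
  have hxP : x ∈ V.powerset := Finset.mem_powerset.2 hxV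
  have hyP : y ∈ V.powerset := Finset.mem_powerset.2 hyV
  have huP : x ∪ y ∈ V.powerset := Finset.mem_powerset.2 (Finset.union_subset hxV hyV)
  have key : ∀ (Z : ({S // S ∈ V.powerset} ⊕ Bool) → Finset ℕ) (a b : Finset ℕ),
      (∀ S, Z (Sum.inl S) = S.1) → Z (Sum.inr true) = a → Z (Sum.inr false) = b → ∀ S,
      law P Z S = (if S ∈ V.powerset then
        μ S - (if S = x then ε else 0) - (if S = y then ε else 0) else 0) +
        (if S = a then ε else 0) + (if S = b then ε else 0) := by
    intro Z a b h1 h2 h3 S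
    unfold law
    rw [Finset.sum_filter, Fintype.sum_sum_type, Fintype.sum_bool, h2, h3, hP]
    simp only [Sum.elim_inl, Sum.elim_inr, h1]
    have h4 : ∑ T : {S // S ∈ V.powerset}, (if T.1 = S then
        μ T.1 - (if T.1 = x then ε else 0) - (if T.1 = y then ε else 0) else 0) =
        if S ∈ V.powerset then
        μ S - (if S = x then ε else 0) - (if S = y then ε else 0) else 0 := by
      rw [Finset.sum_coe_sort V.powerset (fun T => if T = S then
        μ T - (if T = x then ε else 0) - (if T = y then ε else 0) else 0),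
        Finset.sum_ite_eq' V.powerset S
        (fun T => μ T - (if T = x then ε else 0) - (if T = y then ε else 0))]
    have h5 : ∀ c : Finset ℕ, (if c = S then ε else 0) = if S = c then ε else 0 :=
      fun c => if_congr eq_comm rfl rfl
    rw [h4, h5, h5, ← add_assoc]
  have hmarg : ∀ S, (if S ∈ V.powerset then
        μ S - (if S = x then ε else 0) - (if S = y then ε else 0) else 0) +
        (if S = x then ε else 0) + (if S = y then ε else 0) = μ S := by
    intro S
    by_cases h1 : S ∈ V.powerset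
    · rw [if_pos h1]
      ring
    · have h2 : S ≠ x := fun h => h1 (h ▸ hxP)
      have h3 : S ≠ y := fun h => h1 (h ▸ hyP)
      rw [if_neg h1, if_neg h2, if_neg h3, hμ.2.1 S (fun h => h1 (Finset.mem_powerset.2 h))]
      ring
  obtain ⟨X, hX⟩ : ∃ X : Fin 2 → ({S // S ∈ V.powerset} ⊕ Bool) → Finset ℕ, X =
    ![Sum.elim (fun S => S.1) (fun b => if b then x else y),
      Sum.elim (fun S => S.1) (fun b => if b then y else x)] := ⟨_, rfl⟩
  have hX0 : ∀ S, law P (X 0) S = μ S := by
    intro S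
    rw [key (X 0) x y (fun S => by rw [hX]; rfl) (by rw [hX]; rfl) (by rw [hX]; rfl), hmarg]
  have hX1 : ∀ S, law P (X 1) S = μ S := by
    intro S
    rw [key (X 1) y x (fun S => by rw [hX]; rfl) (by rw [hX]; rfl) (by rw [hX]; rfl), add_right_comm,
      hmarg]
  have hZ : ∀ ω, Finset.univ.biUnion (fun i => X i ω) = X 0 ω ∪ X 1 ω := by
    intro ω
    ext a
    simp only [Finset.mem_biUnion, Finset.mem_univ, true_and, Fin.exists_fin_two, Finset.mem_union]
  refine ⟨_, inferInstance, P, X, ?_, ?_, ?_, ?_⟩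
  · rintro (S | b)
    · rw [hP]
      simp only [Sum.elim_inl]
      have h1 := hμ.1 S.1
      by_cases h2 : S.1 = x
      · have h3 : ¬ S.1 = y := fun h => hxy (h2.symm.trans h)
        rw [if_pos h2, if_neg h3, h2]
        linarith
      · rw [if_neg h2]
        by_cases h3 : S.1 = y
        · rw [if_pos h3, h3]
          linarith
        · rw [if_neg h3]
          linarith
    · rw [hP]
      exact h0
  · rw [Fintype.sum_sum_type, Fintype.sum_bool, hP]
    simp only [Sum.elim_inl, Sum.elim_inr]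
    rw [Finset.sum_coe_sort V.powerset (fun T =>
        μ T - (if T = x then ε else 0) - (if T = y then ε else 0)), Finset.sum_sub_distrib,
      Finset.sum_sub_distrib, hμ.2.2, Finset.sum_ite_eq' V.powerset x, if_pos hxP,
      Finset.sum_ite_eq' V.powerset y, if_pos hyP]
    ring
  · intro i S
    fin_cases i
    · exact hX0 S
    · exact hX1 S
  · refine lt_of_lt_of_eq hgt ?_
    refine Finset.sum_congr rfl fun S hS => ?_
    have h1 : law P (fun ω => Finset.univ.biUnion fun i => X i ω) S =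
        μ S - (if S = x then ε else 0) -
      (if S = y then ε else 0) + (if S = x ∪ y then 2 * ε else 0) := by
      rw [key (fun ω => Finset.univ.biUnion fun i => X i ω) (x ∪ y) (x ∪ y)
        (fun S => by rw [hZ, hX]; exact Finset.union_self _) (by rw [hZ, hX]; rfl)
        (by rw [hZ, hX]; exact Finset.union_comm _ _), if_pos hS]
      split_ifs <;> ring
    rw [h1]

/-- The union of two members of the support has probability zero. -/
lemma gain_one {V : Finset ℕ} {μ : Finset ℕ → ℝ} (hμ : Dist V μ) {x y : Finset ℕ} (hx : μ x ≠ 0)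
    (hy : μ y ≠ 0) (hu : μ (x ∪ y) = 0) : Gains V μ 2 := by
  have hxV : x ⊆ V := by
    by_contra h
    exact hx (hμ.2.1 x h)
  have hyV : y ⊆ V := by
    by_contra h
    exact hy (hμ.2.1 y h)
  have hux : x ∪ y ≠ x := fun h => hx (h ▸ hu)
  have huy : x ∪ y ≠ y := fun h => hy (h ▸ hu)
  have hxy : x ≠ y := by
    intro h
    rw [← h, Finset.union_self] at hux
    exact hux rfl
  have hx0 : 0 < μ x := lt_of_le_of_ne (hμ.1 x) hx.symm
  have hy0 : 0 < μ y := lt_of_le_of_ne (hμ.1 y) hy.symm
  obtain ⟨ε, hε⟩ : ∃ ε, ε = min (μ x) (μ y) / 4 := ⟨_, rfl⟩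
  have hm0 : 0 < min (μ x) (μ y) := lt_min hx0 hy0
  have hε0 : 0 < ε := by rw [hε]; linarith
  have hεx : 4 * ε ≤ μ x := by rw [hε]; linarith [min_le_left (μ x) (μ y)]
  have hεy : 4 * ε ≤ μ y := by rw [hε]; linarith [min_le_right (μ x) (μ y)]
  refine perturb hμ hxV hyV hxy hε0.le (by linarith) (by linarith) ?_
  have h1 : ∑ S ∈ V.powerset, (-(μ S * Real.log (μ S)) + (if S = x then ε * Real.log (μ x) else 0) +
      (if S = y then ε * Real.log (μ y) else 0) +
      (if S = x ∪ y then -(2 * ε * Real.log (2 * ε)) else 0)) ≤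
      ∑ S ∈ V.powerset, -((μ S - (if S = x then ε else 0) -
      (if S = y then ε else 0) + (if S = x ∪ y then 2 * ε else 0)) *
      Real.log (μ S - (if S = x then ε else 0) -
      (if S = y then ε else 0) + (if S = x ∪ y then 2 * ε else 0))) := by
    have hterm : ∀ a : ℝ, 4 * ε ≤ a → -(a * Real.log a) + ε * Real.log a ≤
        -((a - ε) * Real.log (a - ε)) := by
      intro a ha
      have h2 : Real.log (a - ε) ≤ Real.log a := Real.log_le_log (by linarith) (by linarith)
      have h3 := mul_le_mul_of_nonneg_left h2 (by linarith : 0 ≤ a - ε)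
      linarith
    refine Finset.sum_le_sum fun S _ => ?_
    by_cases h2 : S = x
    · have h3 : ¬ S = y := fun h => hxy (h2.symm.trans h)
      have h4 : ¬ S = x ∪ y := fun h => hux (h.symm.trans h2)
      rw [if_pos h2, if_neg h3, if_neg h4, if_pos h2, if_neg h3, if_neg h4, h2]
      have := hterm _ hεx
      simp only [add_zero, sub_zero]
      exact this
    · rw [if_neg h2, if_neg h2]
      by_cases h3 : S = y
      · have h4 : ¬ S = x ∪ y := fun h => huy (h.symm.trans h3)
        rw [if_pos h3, if_neg h4, if_pos h3, if_neg h4, h3]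
        have := hterm _ hεy
        simp only [add_zero, sub_zero]
        exact this
      · rw [if_neg h3, if_neg h3]
        by_cases h4 : S = x ∪ y
        · rw [if_pos h4, if_pos h4, h4, hu]
          simp
        · rw [if_neg h4, if_neg h4]
          simp
  refine lt_of_lt_of_le ?_ h1
  rw [Finset.sum_add_distrib, Finset.sum_add_distrib, Finset.sum_add_distrib,
    Finset.sum_ite_eq' V.powerset x, if_pos (Finset.mem_powerset.2 hxV),
    Finset.sum_ite_eq' V.powerset y, if_pos (Finset.mem_powerset.2 hyV),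
    Finset.sum_ite_eq' V.powerset (x ∪ y),
    if_pos (Finset.mem_powerset.2 (Finset.union_subset hxV hyV))]
  have h2 : Real.log (2 * ε) < Real.log (μ x) := Real.log_lt_log (by linarith) (by linarith)
  have h3 : Real.log (2 * ε) < Real.log (μ y) := Real.log_lt_log (by linarith) (by linarith)
  have h4 := mul_lt_mul_of_pos_left h2 hε0
  have h5 := mul_lt_mul_of_pos_left h3 hε0
  unfold ent
  linarith

/-- A member of the support below another member with smaller probability. -/
lemma gain_two {V : Finset ℕ} {μ : Finset ℕ → ℝ} (hμ : Dist V μ) {x y : Finset ℕ} (hxy : x ⊆ y)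
    (hy : μ y ≠ 0) (hlt : μ y < μ x) : Gains V μ 2 := by
  have hy0 : 0 < μ y := lt_of_le_of_ne (hμ.1 y) hy.symm
  have hx0 : 0 < μ x := hy0.trans hlt
  have hyV : y ⊆ V := by
    by_contra h
    exact hy (hμ.2.1 y h)
  have hxV : x ⊆ V := hxy.trans hyV
  have hne : x ≠ y := by
    intro h
    rw [h] at hlt
    exact lt_irrefl _ hlt
  have hu : x ∪ y = y := Finset.union_eq_right.2 hxy
  obtain ⟨ε, hε⟩ : ∃ ε, ε = min (μ y) ((μ x - μ y) / 3) := ⟨_, rfl⟩
  have hε0 : 0 < ε := by rw [hε]; exact lt_min hy0 (by linarith)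
  have hε1 : ε ≤ μ y := by rw [hε]; exact min_le_left _ _
  have hε2 : ε ≤ (μ x - μ y) / 3 := by rw [hε]; exact min_le_right _ _
  refine perturb hμ hxV hyV hne hε0.le (by linarith) hε1 ?_
  rw [hu]
  have h1 : ∑ S ∈ V.powerset, (-(μ S * Real.log (μ S)) +
      (if S = x then ε + ε * Real.log (μ x - ε) else 0) +
      (if S = y then -ε - ε * Real.log (μ y + ε) else 0)) ≤
      ∑ S ∈ V.powerset, -((μ S - (if S = x then ε else 0) -
      (if S = y then ε else 0) + (if S = y then 2 * ε else 0)) *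
      Real.log (μ S - (if S = x then ε else 0) -
      (if S = y then ε else 0) + (if S = y then 2 * ε else 0))) := by
    refine Finset.sum_le_sum fun S _ => ?_
    by_cases h2 : S = x
    · have h3 : ¬ S = y := fun h => hne (h2.symm.trans h)
      rw [if_pos h2, if_neg h3, if_pos h2, if_neg h3, if_neg h3, h2]
      simp only [add_zero, sub_zero]
      have h4 := gib hx0.le (by linarith : 0 < μ x - ε)
      linarith
    · rw [if_neg h2, if_neg h2]
      by_cases h3 : S = y
      · rw [if_pos h3, if_pos h3, if_pos h3, h3]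
        have h4 := gib hy0.le (by linarith : 0 < μ y + ε)
        have h5 : μ y - 0 - ε + 2 * ε = μ y + ε := by ring
        rw [h5]
        linarith
      · rw [if_neg h3, if_neg h3, if_neg h3]
        simp
  refine lt_of_lt_of_le ?_ h1
  rw [Finset.sum_add_distrib, Finset.sum_add_distrib,
    Finset.sum_ite_eq' V.powerset x, if_pos (Finset.mem_powerset.2 hxV),
    Finset.sum_ite_eq' V.powerset y, if_pos (Finset.mem_powerset.2 hyV)]
  have h2 : Real.log (μ y + ε) < Real.log (μ x - ε) := Real.log_lt_log (by linarith) (by linarith)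
  have h4 := mul_lt_mul_of_pos_left h2 hε0
  unfold ent
  linarith

/-- A distribution that is not increasing on a union-closed family has two dependent copies whose
union has larger entropy. -/
theorem gain_of_not_inc {V : Finset ℕ} {μ : Finset ℕ → ℝ} (hμ : Dist V μ) (h : ¬ Inc μ) :
    Gains V μ 2 := by
  unfold Inc at h
  push Not at h
  obtain ⟨S, T, hT, h1⟩ := h
  have hS : 0 < μ S := lt_of_le_of_lt (hμ.1 _) h1
  by_cases h2 : μ (S ∪ T) = 0
  · exact gain_one hμ hS.ne' hT h2
  · exact gain_two hμ Finset.subset_union_left h2 h1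

end Pool.Agent.H73.EC
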