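import Mathlib

/-!
# Equivalent forms of the union-closed sets conjecture with constant `κ`: definitions
-/

set_option autoImplicit false

open Finset

namespace Pool.Agent.H73.EC

/-- The family `A` is union-closed. -/
def UC (A : Finset (Finset ℕ)) : Prop := ∀ X ∈ A, ∀ Y ∈ A, X ∪ Y ∈ A

/-- `U` is an up-set of `A` -/
def UpSet (A U : Finset (Finset ℕ)) : Prop := U ⊆ A ∧ ∀ X ∈ U, ∀ Y ∈ A, X ⊆ Y → Y ∈ U

/-- some point lies in at least `κ |A|` members -/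
def Freq (κ : ℝ) : Prop :=
  ∀ A : Finset (Finset ℕ), UC A → (∃ X ∈ A, X.Nonempty) →
    ∃ x ∈ A.sup id, κ * A.card ≤ (A.filter fun S => x ∈ S).card

/-- one probability vector for all up-sets -/
def Vect (κ : ℝ) : Prop :=
  ∀ A : Finset (Finset ℕ), UC A → (∃ X ∈ A, X.Nonempty) →
    ∃ c : ℕ → ℝ, (∀ x, 0 ≤ c x) ∧ ∑ x ∈ A.sup id, c x = 1 ∧
      ∀ U, UpSet A U → κ * U.card ≤ ∑ S ∈ U, ∑ x ∈ S, c x

/-- increasing weights -/
def Wts (κ : ℝ) : Prop :=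
  ∀ A : Finset (Finset ℕ), UC A → (∃ X ∈ A, X.Nonempty) →
    ∀ w : Finset ℕ → ℝ, (∀ S ∈ A, 0 ≤ w S) → (∀ S ∈ A, ∀ T ∈ A, S ⊆ T → w S ≤ w T) →
      ∃ x ∈ A.sup id, κ * ∑ S ∈ A, w S ≤ ∑ S ∈ A.filter (fun S => x ∈ S), w S

/-- `μ` is a probability distribution on the subsets of `V` -/
def Dist (V : Finset ℕ) (μ : Finset ℕ → ℝ) : Prop :=
  (∀ S, 0 ≤ μ S) ∧ (∀ S, ¬ S ⊆ V → μ S = 0) ∧ ∑ S ∈ V.powerset, μ S = 1

/-- entropy -/
noncomputable def ent (V : Finset ℕ) (μ : Finset ℕ → ℝ) : ℝ :=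
  ∑ S ∈ V.powerset, -(μ S * Real.log (μ S))

/-- distribution of the random set `Z` -/
noncomputable def law {Ω : Type} [Fintype Ω] (P : Ω → ℝ) (Z : Ω → Finset ℕ) (S : Finset ℕ) : ℝ :=
  ∑ ω with Z ω = S, P ω

/-- some `k` random sets with distribution `μ` have a union with larger entropy -/
def Gains (V : Finset ℕ) (μ : Finset ℕ → ℝ) (k : ℕ) : Prop :=
  ∃ (Ω : Type) (_ : Fintype Ω) (P : Ω → ℝ) (X : Fin k → Ω → Finset ℕ),
    (∀ ω, 0 ≤ P ω) ∧ ∑ ω, P ω = 1 ∧ (∀ i S, law P (X i) S = μ S) ∧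
    ent V μ < ent V (law P fun ω => Finset.univ.biUnion fun i => X i ω)

end Pool.Agent.H73.EC
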