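import Pool.Agent.H73.EC.Main
import Pool.Agent.H4.FP.Main

/-!
The union-closed sets conjecture with any constant `κ` is equivalent to its weighted form, to its form
with one probability vector for all up-sets, and to the statement that every random set with small
marginals has two dependent copies whose union has larger entropy.
-/

set_option autoImplicit false

open Finset

namespace Pool.Agent.Results.MP_75f39d_co.EntropyCompleteness

/-- The family `A` is union-closed and has a nonempty member. -/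
def UnionClosed (A : Finset (Finset ℕ)) : Prop :=
  (∀ X ∈ A, ∀ Y ∈ A, X ∪ Y ∈ A) ∧ ∃ X ∈ A, X.Nonempty

/-- Some point lies in at least `κ |A|` members of `A`. -/
def Frequent (κ : ℝ) : Prop :=
  ∀ A : Finset (Finset ℕ), UnionClosed A →
    ∃ x ∈ A.sup id, κ * A.card ≤ (A.filter fun S => x ∈ S).card

/-- `U` is an up-set of the family `A`: it consists of members of `A` and contains every member of
`A` which contains a member of `U`. -/
def UpSet (A U : Finset (Finset ℕ)) : Prop := U ⊆ A ∧ ∀ X ∈ U, ∀ Y ∈ A, X ⊆ Y → Y ∈ U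

/-- There is one probability vector `c` on the union of `A` such that for every up-set `U` of `A` the
average over `U` of `c(S) = ∑ x ∈ S, c x` is at least `κ`. -/
def Uniform (κ : ℝ) : Prop :=
  ∀ A : Finset (Finset ℕ), UnionClosed A →
    ∃ c : ℕ → ℝ, (∀ x, 0 ≤ c x) ∧ ∑ x ∈ A.sup id, c x = 1 ∧
      ∀ U, UpSet A U → κ * U.card ≤ ∑ S ∈ U, ∑ x ∈ S, c x

/-- For every weight function `w ≥ 0` on the subsets of a finite set `V` with
`w(X ∪ Y)² ≥ w(X) w(Y)` and `w ≠ 0` for some nonempty set, some point of `V` lies in sets of total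
weight at least `κ w(V)`, where `w(V)` is the weight of all subsets. -/
def Weighted (κ : ℝ) : Prop :=
  ∀ (V : Finset ℕ) (w : Finset ℕ → ℝ), (∀ S ⊆ V, 0 ≤ w S) → (∃ S ⊆ V, S.Nonempty ∧ w S ≠ 0) →
    (∀ X ⊆ V, ∀ Y ⊆ V, w X * w Y ≤ w (X ∪ Y) ^ 2) →
      ∃ x ∈ V, κ * ∑ S ∈ V.powerset, w S ≤ ∑ S ∈ V.powerset.filter (fun S => x ∈ S), w S

/-- `μ` is a probability distribution on the subsets of the finite set `V`. -/
def Distribution (V : Finset ℕ) (μ : Finset ℕ → ℝ) : Prop :=
  (∀ S, 0 ≤ μ S) ∧ (∀ S, ¬ S ⊆ V → μ S = 0) ∧ ∑ S ∈ V.powerset, μ S = 1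

/-- The entropy of the distribution `μ`. -/
noncomputable def entropy (V : Finset ℕ) (μ : Finset ℕ → ℝ) : ℝ :=
  ∑ S ∈ V.powerset, -(μ S * Real.log (μ S))

/-- The distribution of the random set `Z` on the finite probability space `(Ω, P)`. -/
noncomputable def law {Ω : Type} [Fintype Ω] (P : Ω → ℝ) (Z : Ω → Finset ℕ) (S : Finset ℕ) : ℝ :=
  ∑ ω with Z ω = S, P ω

/-- On some finite probability space there are `k` random sets, each with the distribution `μ`, whose
union has larger entropy than `μ`. -/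
def Gain (V : Finset ℕ) (μ : Finset ℕ → ℝ) (k : ℕ) : Prop :=
  ∃ (Ω : Type) (_ : Fintype Ω) (P : Ω → ℝ) (X : Fin k → Ω → Finset ℕ),
    (∀ ω, 0 ≤ P ω) ∧ ∑ ω, P ω = 1 ∧ (∀ i S, law P (X i) S = μ S) ∧
    entropy V μ < entropy V (law P fun ω => Finset.univ.biUnion fun i => X i ω)

/-- `μ` is the distribution of a random subset of `V` which is not almost surely empty and contains
every point of `V` with probability less than `κ`. -/
def Sparse (κ : ℝ) (V : Finset ℕ) (μ : Finset ℕ → ℝ) : Prop :=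
  Distribution V μ ∧ μ ∅ ≠ 1 ∧ ∀ x ∈ V, ∑ S ∈ V.powerset.filter (fun S => x ∈ S), μ S < κ

/-- Poonen's Q1. -/
def Q1 : Prop :=
  ∀ A : Finset (Finset ℕ),
    A.Nonempty →
    (∀ X ∈ A, ∀ Y ∈ A, X ∪ Y ∈ A) →
    (∀ x ∈ A.sup id, ∀ y ∈ A.sup id, x ≠ y →
      ∃ S ∈ A, (x ∈ S ∧ y ∉ S) ∨ (y ∈ S ∧ x ∉ S)) →
    A ≠ (A.sup id).powerset →
    ∃ x ∈ A.sup id, 2 * (A.filter (fun S => x ∈ S)).card > A.card

/-- For every real number `κ` the following are equivalent: every union-closed family `A` with a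
nonempty member has a point in at least `κ |A|` members; one probability vector works for all up-sets;
the weighted form; every random finite set which is not almost surely empty and contains every point
with probability less than `κ` has two dependent copies whose union has larger entropy; it has some
number of dependent copies whose union has larger entropy.  For `κ = 1/2` these statements are
equivalent to Q1. -/
theorem result (κ : ℝ) :
    List.TFAE [Frequent κ, Uniform κ, Weighted κ,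
      ∀ V μ, Sparse κ V μ → Gain V μ 2,
      ∀ V μ, Sparse κ V μ → ∃ k, Gain V μ k] ∧
    (κ = 1 / 2 → (Frequent κ ↔ Q1)) := by
  have h1 : Frequent κ ↔ Pool.Agent.H73.EC.Freq κ :=
    ⟨fun h A hA hne => h A ⟨hA, hne⟩, fun h A hA => h A hA.1 hA.2⟩
  have h2 : Uniform κ ↔ Pool.Agent.H73.EC.Vect κ :=
    ⟨fun h A hA hne => h A ⟨hA, hne⟩, fun h A hA => h A hA.1 hA.2⟩
  have h3 : Weighted κ ↔ Pool.Agent.H73.EC.Geo κ := Iff.rfl
  have h4 : (∀ V μ, Sparse κ V μ → Gain V μ 2) ↔ Pool.Agent.H73.EC.Two κ :=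
    ⟨fun h V μ a b c => h V μ ⟨a, b, c⟩, fun h V μ a => h V μ a.1 a.2.1 a.2.2⟩
  have h5 : (∀ V μ, Sparse κ V μ → ∃ k, Gain V μ k) ↔ Pool.Agent.H73.EC.Many κ :=
    ⟨fun h V μ a b c => h V μ ⟨a, b, c⟩, fun h V μ a => h V μ a.1 a.2.1 a.2.2⟩
  constructor
  · rw [h1, h2, h3, h4, h5]
    exact Pool.Agent.H73.EC.tfae κ
  · rintro rfl
    have h6 : Pool.Agent.H4.FP.Frankl ↔ Q1 := Pool.Agent.H4.FP.main_tfae.out 0 1
    rw [← h6]
    constructor
    · intro h A hA hne
      obtain ⟨x, hx, h7⟩ := h A ⟨hA, hne⟩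
      refine ⟨x, hx, ?_⟩
      have h8 : (A.card : ℝ) ≤ 2 * ((A.filter fun S => x ∈ S).card : ℝ) := by linarith
      exact_mod_cast h8
    · intro h A hA
      obtain ⟨x, hx, h7⟩ := h A hA.1 hA.2
      refine ⟨x, hx, ?_⟩
      have h8 : (A.card : ℝ) ≤ 2 * ((A.filter fun S => x ∈ S).card : ℝ) := by exact_mod_cast h7
      linarith

end Pool.Agent.Results.MP_75f39d_co.EntropyCompleteness
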