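import Pool.Agent.H73.EC.Defs

/-!
# Layer cake and the variance of a sum of independent variables
-/

set_option autoImplicit false

open Finset

namespace Pool.Agent.H73.EC

/-- Layer cake. -/
lemma layer {ι : Type*} (s : Finset ι) (g : ι → ℝ) : ∀ (n : ℕ) (W : ι → ℝ),
    (∀ i ∈ s, 0 ≤ W i) → (s.filter fun i => 0 < W i).card = n →
    (∀ t : ℝ, 0 < t → 0 ≤ ∑ i ∈ s.filter (fun i => t ≤ W i), g i) → 0 ≤ ∑ i ∈ s, W i * g i := by
  intro n
  induction n using Nat.strong_induction_on with
  | _ n ih =>
    intro W hW hn h
    rcases (s.filter fun i => 0 < W i).eq_empty_or_nonempty with hP | hP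
    · refine le_of_eq (Finset.sum_eq_zero fun i hi => ?_).symm
      have h1 : ¬ 0 < W i := by
        intro h2
        have h3 : i ∈ s.filter fun i => 0 < W i := Finset.mem_filter.2 ⟨hi, h2⟩
        rw [hP] at h3
        exact Finset.notMem_empty i h3
      have h2 : W i = 0 := le_antisymm (not_lt.1 h1) (hW i hi)
      rw [h2, zero_mul]
    · obtain ⟨i0, hi0, hmin⟩ := Finset.exists_min_image _ W hP
      have hm : 0 < W i0 := (Finset.mem_filter.1 hi0).2
      have hge : ∀ i ∈ s, 0 < W i → W i0 ≤ W i := fun i hi h1 => hmin i (Finset.mem_filter.2 ⟨hi, h1⟩)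
      have hlt : (s.filter fun i => 0 < max (W i - W i0) 0).card < n := by
        rw [← hn]
        refine Finset.card_lt_card ?_
        rw [Finset.ssubset_iff_of_subset]
        · refine ⟨i0, hi0, ?_⟩
          rw [Finset.mem_filter, sub_self, max_self]
          exact fun h1 => lt_irrefl _ h1.2
        · intro i hi
          rw [Finset.mem_filter] at hi ⊢
          refine ⟨hi.1, ?_⟩
          rcases lt_max_iff.1 hi.2 with h1 | h1
          · linarith
          · exact absurd h1 (lt_irrefl _)
      have key := ih _ hlt (fun i => max (W i - W i0) 0) (fun i _ => le_max_right _ _) rfl ?_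
      · have h1 : ∑ i ∈ s, W i * g i = ∑ i ∈ s, max (W i - W i0) 0 * g i +
            W i0 * ∑ i ∈ s.filter (fun i => W i0 ≤ W i), g i := by
          rw [Finset.sum_filter, Finset.mul_sum, ← Finset.sum_add_distrib]
          refine Finset.sum_congr rfl fun i hi => ?_
          by_cases h2 : W i0 ≤ W i
          · rw [if_pos h2, max_eq_left (sub_nonneg.2 h2)]
            ring
          · rw [if_neg h2, max_eq_right (by linarith [not_le.1 h2])]
            have h3 : ¬ 0 < W i := fun h3 => h2 (hge i hi h3)
            have h4 : W i = 0 := le_antisymm (not_lt.1 h3) (hW i hi)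
            rw [h4]
            ring
        rw [h1]
        exact add_nonneg key (mul_nonneg hm.le (h _ hm))
      · intro t ht
        have h1 : (s.filter fun i => t ≤ max (W i - W i0) 0) = s.filter fun i => t + W i0 ≤ W i := by
          refine Finset.filter_congr fun i _ => ?_
          rw [le_max_iff]
          constructor
          · rintro (h1 | h1)
            · linarith
            · linarith
          · intro h1
            left
            linarith
        rw [h1]
        exact h _ (by linarith)

/-- The variance of a sum of independent centred variables. -/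
lemma var_prod (N : ℕ) (A : Finset (Finset ℕ)) (w h : Finset ℕ → ℝ) (h1 : ∑ S ∈ A, w S = 1)
    (h0 : ∑ S ∈ A, w S * h S = 0) :
    ∑ f ∈ Fintype.piFinset (fun _ : Fin N => A), (∏ i, w (f i)) * (∑ i, h (f i)) ^ 2 =
      N * ∑ S ∈ A, w S * h S ^ 2 := by
  have e1 : ∀ f : Fin N → Finset ℕ, (∏ i, w (f i)) * (∑ i, h (f i)) ^ 2 =
      ∑ i, ∑ j, (∏ k, w (f k)) * (h (f i) * h (f j)) := by
    intro f
    rw [sq, Finset.sum_mul_sum, Finset.mul_sum]
    refine Finset.sum_congr rfl fun i _ => ?_
    rw [Finset.mul_sum]
  rw [Finset.sum_congr rfl fun f _ => e1 f, Finset.sum_comm]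
  have e2 : ∀ i : Fin N, ∑ f ∈ Fintype.piFinset (fun _ : Fin N => A),
      ∑ j, (∏ k, w (f k)) * (h (f i) * h (f j)) = ∑ S ∈ A, w S * h S ^ 2 := by
    intro i
    rw [Finset.sum_comm, Finset.sum_eq_single i]
    · have e3 : ∀ f : Fin N → Finset ℕ, (∏ k, w (f k)) * (h (f i) * h (f i)) =
          ∏ k, (w (f k) * if k = i then h (f k) ^ 2 else 1) := by
        intro f
        rw [Finset.prod_mul_distrib, Finset.prod_ite_eq' Finset.univ i (fun k => h (f k) ^ 2)]
        simp [sq]
      rw [Finset.sum_congr rfl fun f _ => e3 f,
        ← Finset.prod_univ_sum (fun _ : Fin N => A) (fun k S => w S * if k = i then h S ^ 2 else 1)]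
      have e4 : ∀ k : Fin N, ∑ S ∈ A, (w S * if k = i then h S ^ 2 else 1) =
          if k = i then ∑ S ∈ A, w S * h S ^ 2 else 1 := by
        intro k
        split_ifs
        · rfl
        · simp [h1]
      rw [Finset.prod_congr rfl fun k _ => e4 k, Finset.prod_ite_eq' Finset.univ i]
      simp
    · intro j _ hji
      have e3 : ∀ f : Fin N → Finset ℕ, (∏ k, w (f k)) * (h (f i) * h (f j)) =
          ∏ k, (w (f k) * ((if k = i then h (f k) else 1) * if k = j then h (f k) else 1)) := by
        intro f
        rw [Finset.prod_mul_distrib, Finset.prod_mul_distrib,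
          Finset.prod_ite_eq' Finset.univ i (fun k => h (f k)),
          Finset.prod_ite_eq' Finset.univ j (fun k => h (f k))]
        simp
      rw [Finset.sum_congr rfl fun f _ => e3 f,
        ← Finset.prod_univ_sum (fun _ : Fin N => A)
          (fun k S => w S * ((if k = i then h S else 1) * if k = j then h S else 1))]
      refine Finset.prod_eq_zero (Finset.mem_univ i) ?_
      have e4 : ∀ S ∈ A, w S * ((if i = i then h S else 1) * if i = j then h S else 1) =
          w S * h S := by
        intro S _
        rw [if_pos rfl, if_neg hji.symm, mul_one]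
      rw [Finset.sum_congr rfl e4]
      exact h0
    · intro h2
      exact absurd (Finset.mem_univ i) h2
  rw [Finset.sum_congr rfl fun i _ => e2 i]
  simp

end Pool.Agent.H73.EC
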