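import Pool.Agent.H73.EC.Prd
import Pool.Agent.H73.EC.Cpl
import Pool.Agent.H73.UW.Mix

/-!
# The equivalence
-/

set_option autoImplicit false

open Finset

namespace Pool.Agent.H73.EC

theorem vect_of_wts {κ : ℝ} (h : Wts κ) : Vect κ := by
  intro A hA hne
  have hV : (A.sup id).Nonempty := by
    obtain ⟨X, hX, x, hx⟩ := hne
    exact ⟨x, Finset.mem_sup.2 ⟨X, hX, hx⟩⟩
  obtain ⟨c, hc0, hc1, hc2⟩ := Pool.Agent.H73.UW.ville (A.sup id) hV
    {v | ∃ U, UpSet A U ∧ v = fun x => ∑ S ∈ U, ((if x ∈ S then (1 : ℝ) else 0) - κ)} (by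
      intro ι _ a z ha ha1 hz
      choose U hU hzU using hz
      obtain ⟨x, hx, h1⟩ := h A hA hne (fun S => ∑ i, a i * if S ∈ U i then 1 else 0)
        (fun S _ => Finset.sum_nonneg fun i _ => mul_nonneg (ha i) (by split_ifs <;> norm_num))
        (fun S hS T hT hST => Finset.sum_le_sum fun i _ => by
          refine mul_le_mul_of_nonneg_left ?_ (ha i)
          by_cases h2 : S ∈ U i
          · rw [if_pos h2, if_pos ((hU i).2 S h2 T hT hST)]
          · rw [if_neg h2]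
            split_ifs <;> norm_num)
      refine ⟨x, hx, ?_⟩
      have h2 : ∑ i, a i * z i x = ∑ S ∈ A.filter (fun S => x ∈ S),
          (∑ i, a i * if S ∈ U i then 1 else 0) - κ * ∑ S ∈ A,
          (∑ i, a i * if S ∈ U i then 1 else 0) := by
        rw [Finset.sum_filter, Finset.mul_sum, ← Finset.sum_sub_distrib]
        have h3 : ∀ i, a i * z i x = ∑ S ∈ A, ((if x ∈ S then (a i * if S ∈ U i then 1 else 0)
            else 0) - κ * (a i * if S ∈ U i then 1 else 0)) := by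
          intro i
          rw [hzU i]
          dsimp only
          rw [← Finset.inter_eq_right.2 (hU i).1, ← Finset.filter_mem_eq_inter, Finset.sum_filter,
            Finset.mul_sum]
          refine Finset.sum_congr rfl fun S _ => ?_
          rw [Finset.filter_mem_eq_inter, Finset.inter_eq_right.2 (hU i).1]
          split_ifs <;> ring
        rw [Finset.sum_congr rfl fun i _ => h3 i, Finset.sum_comm]
        refine Finset.sum_congr rfl fun S _ => ?_
        rw [Finset.sum_sub_distrib, ← Finset.mul_sum]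
        split_ifs <;> simp
      rw [h2]
      linarith)
  refine ⟨c, hc0, hc1, fun U hU => ?_⟩
  have h1 := hc2 _ ⟨U, hU, rfl⟩
  have h2 : ∑ x ∈ A.sup id, c x * ∑ S ∈ U, ((if x ∈ S then (1 : ℝ) else 0) - κ) =
      ∑ S ∈ U, ∑ x ∈ S, c x - κ * U.card := by
    have h3 : ∀ x, c x * ∑ S ∈ U, ((if x ∈ S then (1 : ℝ) else 0) - κ) =
        ∑ S ∈ U, (if x ∈ S then c x else 0) - c x * (κ * U.card) := by
      intro x
      rw [Finset.sum_sub_distrib, mul_sub, Finset.mul_sum, Finset.sum_const, nsmul_eq_mul]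
      congr 1
      · refine Finset.sum_congr rfl fun S _ => ?_
        split_ifs
        · rw [mul_one]
        · rw [mul_zero]
      · ring
    rw [Finset.sum_congr rfl fun x _ => h3 x, Finset.sum_sub_distrib, ← Finset.sum_mul, hc1,
      one_mul, Finset.sum_comm]
    congr 1
    refine Finset.sum_congr rfl fun S hS => ?_
    rw [← Finset.sum_filter]
    refine Finset.sum_congr ?_ fun _ _ => rfl
    ext x
    rw [Finset.mem_filter, Finset.mem_sup]
    exact ⟨fun h4 => h4.2, fun h4 => ⟨⟨S, hU.1 hS, h4⟩, h4⟩⟩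
  rw [h2] at h1
  linarith

theorem freq_of_vect {κ : ℝ} (h : Vect κ) : Freq κ := by
  intro A hA hne
  obtain ⟨c, hc0, hc1, hc2⟩ := h A hA hne
  have h1 := hc2 A ⟨Finset.Subset.refl _, fun _ _ Y hY _ => hY⟩
  by_contra hcon
  push Not at hcon
  have h2 : ∑ S ∈ A, ∑ x ∈ S, c x = ∑ x ∈ A.sup id, c x * (A.filter fun S => x ∈ S).card := by
    have h3 : ∀ S ∈ A, ∑ x ∈ S, c x = ∑ x ∈ A.sup id, if x ∈ S then c x else 0 := by
      intro S hS
      rw [← Finset.sum_filter]
      refine Finset.sum_congr ?_ fun _ _ => rfl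
      ext x
      rw [Finset.mem_filter, Finset.mem_sup]
      exact ⟨fun h4 => ⟨⟨S, hS, h4⟩, h4⟩, fun h4 => h4.2⟩
    rw [Finset.sum_congr rfl h3, Finset.sum_comm]
    refine Finset.sum_congr rfl fun x _ => ?_
    rw [← Finset.sum_filter, Finset.sum_const, nsmul_eq_mul, mul_comm]
  rw [h2] at h1
  have h3 : ∑ x ∈ A.sup id, c x * (A.filter fun S => x ∈ S).card <
      ∑ x ∈ A.sup id, c x * (κ * A.card) := by
    refine Finset.sum_lt_sum (fun x hx => mul_le_mul_of_nonneg_left (hcon x hx).le (hc0 x)) ?_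
    by_contra h4
    push Not at h4
    have h5 : ∀ x ∈ A.sup id, c x = 0 := by
      intro x hx
      by_contra h6
      have h7 : 0 < c x := lt_of_le_of_ne (hc0 x) (Ne.symm h6)
      exact absurd (h4 x hx) (not_le.2 (mul_lt_mul_of_pos_left (hcon x hx) h7))
    rw [Finset.sum_eq_zero h5] at hc1
    exact zero_ne_one hc1
  rw [← Finset.sum_mul, hc1, one_mul] at h3
  linarith

/-- the conjecture for couplings of two copies -/
def Two (κ : ℝ) : Prop :=
  ∀ (V : Finset ℕ) (μ : Finset ℕ → ℝ), Dist V μ → μ ∅ ≠ 1 →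
    (∀ x ∈ V, ∑ S ∈ V.powerset.filter (fun S => x ∈ S), μ S < κ) → Gains V μ 2

/-- the conjecture for couplings of several copies -/
def Many (κ : ℝ) : Prop :=
  ∀ (V : Finset ℕ) (μ : Finset ℕ → ℝ), Dist V μ → μ ∅ ≠ 1 →
    (∀ x ∈ V, ∑ S ∈ V.powerset.filter (fun S => x ∈ S), μ S < κ) → ∃ k, Gains V μ k

theorem two_of_wts {κ : ℝ} (h : Wts κ) : Two κ := by
  intro V μ hμ he hm
  refine gain_of_not_inc hμ fun hI => ?_
  obtain ⟨A, hA⟩ : ∃ A, A = V.powerset.filter (fun S => μ S ≠ 0) := ⟨_, rfl⟩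
  have memA : ∀ S, S ∈ A ↔ μ S ≠ 0 := by
    intro S
    rw [hA, Finset.mem_filter, Finset.mem_powerset]
    refine ⟨fun h1 => h1.2, fun h1 => ⟨?_, h1⟩⟩
    by_contra h2
    exact h1 (hμ.2.1 S h2)
  have hUC : UC A := by
    intro X hX Y hY
    rw [memA] at hX hY ⊢
    have h1 := hI X Y hY
    have h2 : 0 < μ X := lt_of_le_of_ne (hμ.1 X) hX.symm
    exact (h2.trans_le h1).ne'
  have hsum : ∀ φ : Finset ℕ → ℝ, ∑ S ∈ V.powerset, μ S * φ S = ∑ S ∈ A, μ S * φ S := by
    intro φ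
    rw [hA, Finset.sum_filter]
    refine Finset.sum_congr rfl fun S _ => ?_
    by_cases h1 : μ S = 0
    · rw [if_neg (not_not.2 h1), h1, zero_mul]
    · rw [if_pos h1]
  have h1 : ∑ S ∈ A, μ S = 1 := by
    have h2 := hsum (fun _ => 1)
    simp only [mul_one] at h2
    rw [← h2]
    exact hμ.2.2
  have hne : ∃ X ∈ A, X.Nonempty := by
    by_contra h2
    push Not at h2
    apply he
    have h3 : ∀ S ∈ A, S ≠ ∅ → μ S = 0 := fun S hS h4 => absurd (h2 S hS) h4
    rw [← h1]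
    symm
    refine Finset.sum_eq_single ∅ h3 fun h4 => ?_
    by_contra h5
    exact h4 ((memA ∅).2 h5)
  obtain ⟨x, hx, h2⟩ := h A hUC hne μ (fun S _ => hμ.1 S) (fun S hS T hT hST => by
    have h3 := hI S T ((memA T).1 hT)
    rwa [Finset.union_eq_right.2 hST] at h3)
  have hxV : x ∈ V := by
    obtain ⟨S, hS, hxS⟩ := Finset.mem_sup.1 hx
    rw [hA, Finset.mem_filter, Finset.mem_powerset] at hS
    exact hS.1 hxS
  have h3 := hm x hxV
  rw [h1, mul_one] at h2
  have h4 : ∑ S ∈ V.powerset.filter (fun S => x ∈ S), μ S = ∑ S ∈ A.filter (fun S => x ∈ S), μ S := by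
    have h5 := hsum (fun S => if x ∈ S then 1 else 0)
    simp only [mul_ite, mul_one, mul_zero] at h5
    rw [Finset.sum_filter, Finset.sum_filter]
    exact h5
  rw [h4] at h3
  linarith

theorem many_of_two {κ : ℝ} (h : Two κ) : Many κ := fun V μ hμ he hm => ⟨2, h V μ hμ he hm⟩

theorem freq_of_many {κ : ℝ} (h : Many κ) : Freq κ := by
  intro A hA hne
  by_contra hcon
  push Not at hcon
  obtain ⟨V, hV⟩ : ∃ V, V = A.sup id := ⟨_, rfl⟩
  rw [← hV] at hcon
  obtain ⟨μ, hμd⟩ : ∃ μ : Finset ℕ → ℝ, μ = fun S => if S ∈ A then (A.card : ℝ)⁻¹ else 0 := ⟨_, rfl⟩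
  have hcard : 0 < (A.card : ℝ) := by
    obtain ⟨X, hX, _⟩ := hne
    exact_mod_cast Finset.card_pos.2 ⟨X, hX⟩
  have hAV : ∀ S ∈ A, S ⊆ V := by
    intro S hS x hx
    rw [hV]
    exact Finset.mem_sup.2 ⟨S, hS, hx⟩
  have hinter : ∀ φ : Finset ℕ → ℝ, ∑ S ∈ V.powerset, (if S ∈ A then φ S else 0) = ∑ S ∈ A, φ S := by
    intro φ
    rw [← Finset.sum_filter]
    refine Finset.sum_congr ?_ fun _ _ => rfl
    ext S
    rw [Finset.mem_filter, Finset.mem_powerset]
    exact ⟨fun h1 => h1.2, fun h1 => ⟨hAV S h1, h1⟩⟩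
  have hμ : Dist V μ := by
    refine ⟨fun S => ?_, fun S hS => ?_, ?_⟩
    · rw [hμd]
      dsimp only
      split_ifs
      · exact (inv_pos.2 hcard).le
      · exact le_rfl
    · rw [hμd]
      exact if_neg fun h1 => hS (hAV S h1)
    · rw [hμd, hinter, Finset.sum_const, nsmul_eq_mul, mul_inv_cancel₀ hcard.ne']
  have hI : Inc μ := by
    intro S T hT
    have hTA : T ∈ A := by
      by_contra h1
      rw [hμd] at hT
      exact hT (if_neg h1)
    by_cases hS : S ∈ A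
    · rw [hμd]
      dsimp only
      rw [if_pos hS, if_pos (hA S hS T hTA)]
    · have h1 : μ S = 0 := by
        rw [hμd]
        exact if_neg hS
      rw [h1]
      exact hμ.1 _
  have he : μ ∅ ≠ 1 := by
    intro h1
    obtain ⟨X, hX, hXne⟩ := hne
    have h2 : ∅ ∈ A := by
      by_contra h3
      rw [hμd] at h1
      dsimp only at h1
      rw [if_neg h3] at h1
      exact zero_ne_one h1
    rw [hμd] at h1
    dsimp only at h1
    rw [if_pos h2, inv_eq_one] at h1
    have h3 : A.card = 1 := by exact_mod_cast h1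
    obtain ⟨Y, hY⟩ := Finset.card_eq_one.1 h3
    rw [hY, Finset.mem_singleton] at h2 hX
    rw [hX, ← h2] at hXne
    exact Finset.not_nonempty_empty hXne
  obtain ⟨k, hk⟩ := h V μ hμ he fun x hx => by
    have h1 := hcon x hx
    have h2 : ∑ S ∈ V.powerset.filter (fun S => x ∈ S), μ S =
        ((A.filter fun S => x ∈ S).card : ℝ) / A.card := by
      have h3 : ∀ S, (if x ∈ S then μ S else 0) =
          if S ∈ A then (if x ∈ S then (A.card : ℝ)⁻¹ else 0) else 0 := by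
        intro S
        rw [hμd]
        dsimp only
        split_ifs <;> rfl
      rw [Finset.sum_filter, Finset.sum_congr rfl fun S _ => h3 S, hinter, ← Finset.sum_filter,
        Finset.sum_const, nsmul_eq_mul, div_eq_mul_inv]
    rw [h2, div_lt_iff₀ hcard]
    exact h1
  exact no_gain hμ hI k hk

/-- weights with `w(X ∪ Y)² ≥ w(X) w(Y)` -/
def Geo (κ : ℝ) : Prop :=
  ∀ (V : Finset ℕ) (w : Finset ℕ → ℝ), (∀ S ⊆ V, 0 ≤ w S) → (∃ S ⊆ V, S.Nonempty ∧ w S ≠ 0) →
    (∀ X ⊆ V, ∀ Y ⊆ V, w X * w Y ≤ w (X ∪ Y) ^ 2) →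
      ∃ x ∈ V, κ * ∑ S ∈ V.powerset, w S ≤ ∑ S ∈ V.powerset.filter (fun S => x ∈ S), w S

theorem geo_of_wts {κ : ℝ} (h : Wts κ) : Geo κ := by
  intro V w h0 hne hg
  obtain ⟨A, hA⟩ : ∃ A, A = V.powerset.filter (fun S => w S ≠ 0) := ⟨_, rfl⟩
  have memA : ∀ S, S ∈ A ↔ S ⊆ V ∧ w S ≠ 0 := by
    intro S
    rw [hA, Finset.mem_filter, Finset.mem_powerset]
  have hUC : UC A := by
    intro X hX Y hY
    rw [memA] at hX hY ⊢
    have hx : 0 < w X := lt_of_le_of_ne (h0 X hX.1) hX.2.symm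
    have hy : 0 < w Y := lt_of_le_of_ne (h0 Y hY.1) hY.2.symm
    refine ⟨Finset.union_subset hX.1 hY.1, fun h1 => ?_⟩
    have h2 := hg X hX.1 Y hY.1
    rw [h1] at h2
    have h3 := mul_pos hx hy
    norm_num at h2
    linarith
  have hmono : ∀ S ∈ A, ∀ T ∈ A, S ⊆ T → w S ≤ w T := by
    intro S hS T hT hST
    rw [memA] at hS hT
    have hy : 0 < w T := lt_of_le_of_ne (h0 T hT.1) hT.2.symm
    have h2 := hg S hS.1 T hT.1
    rw [Finset.union_eq_right.2 hST, sq] at h2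
    exact le_of_mul_le_mul_right h2 hy
  obtain ⟨S0, hS0, hS0n, hS0w⟩ := hne
  obtain ⟨x, hx, h1⟩ := h A hUC ⟨S0, (memA S0).2 ⟨hS0, hS0w⟩, hS0n⟩ w
    (fun S hS => h0 S ((memA S).1 hS).1) hmono
  have hxV : x ∈ V := by
    obtain ⟨S, hS, hxS⟩ := Finset.mem_sup.1 hx
    exact ((memA S).1 hS).1 hxS
  have hsum : ∀ φ : Finset ℕ → ℝ, ∑ S ∈ V.powerset, w S * φ S = ∑ S ∈ A, w S * φ S := by
    intro φ
    rw [hA, Finset.sum_filter]
    refine Finset.sum_congr rfl fun S _ => ?_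
    by_cases h1 : w S = 0
    · rw [if_neg (not_not.2 h1), h1, zero_mul]
    · rw [if_pos h1]
  refine ⟨x, hxV, ?_⟩
  have h2 := hsum (fun _ => 1)
  have h3 := hsum (fun S => if x ∈ S then 1 else 0)
  simp only [mul_one] at h2
  simp only [mul_ite, mul_one, mul_zero] at h3
  rw [Finset.sum_filter] at h1
  rw [Finset.sum_filter, h2, h3]
  exact h1

theorem freq_of_geo {κ : ℝ} (h : Geo κ) : Freq κ := by
  intro A hA hne
  obtain ⟨V, hV⟩ : ∃ V, V = A.sup id := ⟨_, rfl⟩
  have hAV : ∀ S ∈ A, S ⊆ V := by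
    intro S hS x hx
    rw [hV]
    exact Finset.mem_sup.2 ⟨S, hS, hx⟩
  have hinter : ∀ φ : Finset ℕ → ℝ, ∑ S ∈ V.powerset, (if S ∈ A then φ S else 0) = ∑ S ∈ A, φ S := by
    intro φ
    rw [← Finset.sum_filter]
    refine Finset.sum_congr ?_ fun _ _ => rfl
    ext S
    rw [Finset.mem_filter, Finset.mem_powerset]
    exact ⟨fun h1 => h1.2, fun h1 => ⟨hAV S h1, h1⟩⟩
  obtain ⟨X, hX, hXn⟩ := hne
  obtain ⟨x, hx, h1⟩ := h V (fun S => if S ∈ A then 1 else 0)
    (fun S _ => by split_ifs <;> norm_num)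
    ⟨X, hAV X hX, hXn, by rw [if_pos hX]; exact one_ne_zero⟩
    (fun S _ T _ => by
      by_cases hS : S ∈ A
      · by_cases hT : T ∈ A
        · rw [if_pos hS, if_pos hT, if_pos (hA S hS T hT)]
          norm_num
        · rw [if_neg hT, mul_zero]
          exact sq_nonneg _
      · rw [if_neg hS, zero_mul]
        exact sq_nonneg _)
  refine ⟨x, hV ▸ hx, ?_⟩
  have h3 : ∀ S, (if x ∈ S then (if S ∈ A then (1 : ℝ) else 0) else 0) =
      if S ∈ A then (if x ∈ S then (1 : ℝ) else 0) else 0 := by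
    intro S
    split_ifs <;> rfl
  rw [hinter, Finset.sum_const, nsmul_eq_mul, mul_one, Finset.sum_filter,
    Finset.sum_congr rfl fun S _ => h3 S, hinter, ← Finset.sum_filter, Finset.sum_const,
    nsmul_eq_mul, mul_one] at h1
  exact h1

theorem tfae (κ : ℝ) : List.TFAE [Freq κ, Vect κ, Geo κ, Two κ, Many κ] := by
  tfae_have 1 → 3 := fun h => geo_of_wts (wts_of_freq h)
  tfae_have 1 → 2 := fun h => vect_of_wts (wts_of_freq h)
  tfae_have 1 → 4 := fun h => two_of_wts (wts_of_freq h)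
  tfae_have 3 → 1 := freq_of_geo
  tfae_have 2 → 1 := freq_of_vect
  tfae_have 4 → 5 := many_of_two
  tfae_have 5 → 1 := freq_of_many
  tfae_finish

theorem char {V : Finset ℕ} {μ : Finset ℕ → ℝ} (hμ : Dist V μ) :
    List.TFAE [Inc μ, ¬ Gains V μ 2, ∀ k, ¬ Gains V μ k] := by
  tfae_have 1 → 3 := fun h k => no_gain hμ h k
  tfae_have 3 → 2 := fun h => h 2
  tfae_have 2 → 1 := fun h => by_contra fun h1 => h (gain_of_not_inc hμ h1)
  tfae_finish

end Pool.Agent.H73.EC
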