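import Pool.Agent.H73.EC.Lay

/-!
# Product trick: from counting to increasing weights
-/

set_option autoImplicit false

open Finset

namespace Pool.Agent.H73.EC

/-- coding of a tuple of sets by one set -/
def enc {N : ℕ} (f : Fin N → Finset ℕ) : Finset ℕ :=
  Finset.univ.biUnion fun i : Fin N => (f i).image fun x => Nat.pair i x

lemma mem_enc {N : ℕ} (f : Fin N → Finset ℕ) (n : ℕ) :
    n ∈ enc f ↔ ∃ i : Fin N, ∃ x ∈ f i, Nat.pair i x = n := by
  unfold enc
  simp only [Finset.mem_biUnion, Finset.mem_univ, true_and, Finset.mem_image]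

lemma pair_mem_enc {N : ℕ} (f : Fin N → Finset ℕ) (i : Fin N) (x : ℕ) :
    Nat.pair i x ∈ enc f ↔ x ∈ f i := by
  rw [mem_enc]
  constructor
  · rintro ⟨j, y, hy, h⟩
    obtain ⟨h1, h2⟩ := Nat.pair_eq_pair.1 h
    have h3 : j = i := Fin.ext h1
    rw [← h3, ← h2]
    exact hy
  · intro h
    exact ⟨i, x, h, rfl⟩

lemma enc_inj {N : ℕ} : Function.Injective (enc : (Fin N → Finset ℕ) → Finset ℕ) := by
  intro f g h
  funext i
  ext x
  rw [← pair_mem_enc f i x, ← pair_mem_enc g i x, h]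

lemma enc_union {N : ℕ} (f g : Fin N → Finset ℕ) : enc f ∪ enc g = enc fun i => f i ∪ g i := by
  ext n
  rw [Finset.mem_union, mem_enc, mem_enc, mem_enc]
  constructor
  · rintro (⟨i, x, hx, h⟩ | ⟨i, x, hx, h⟩)
    · exact ⟨i, x, Finset.mem_union_left _ hx, h⟩
    · exact ⟨i, x, Finset.mem_union_right _ hx, h⟩
  · rintro ⟨i, x, hx, h⟩
    rcases Finset.mem_union.1 hx with hx | hx
    · exact Or.inl ⟨i, x, hx, h⟩
    · exact Or.inr ⟨i, x, hx, h⟩

/-- tuples of members of `A` with weight at least `t` -/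
noncomputable def lev (A : Finset (Finset ℕ)) (w : Finset ℕ → ℝ) (N : ℕ) (t : ℝ) :
    Finset (Fin N → Finset ℕ) :=
  (Fintype.piFinset fun _ : Fin N => A).filter fun f => t ≤ ∏ i, w (f i)

lemma mem_lev {A : Finset (Finset ℕ)} {w : Finset ℕ → ℝ} {N : ℕ} {t : ℝ} {f : Fin N → Finset ℕ} :
    f ∈ lev A w N t ↔ (∀ i, f i ∈ A) ∧ t ≤ ∏ i, w (f i) := by
  unfold lev
  rw [Finset.mem_filter, Fintype.mem_piFinset]

lemma lev_up {A : Finset (Finset ℕ)} {w : Finset ℕ → ℝ} {N : ℕ} {t : ℝ}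
    (h0 : ∀ S ∈ A, 0 ≤ w S) (hm : ∀ S ∈ A, ∀ T ∈ A, S ⊆ T → w S ≤ w T)
    {f g : Fin N → Finset ℕ} (hf : f ∈ lev A w N t) (hg : ∀ i, g i ∈ A) (hfg : ∀ i, f i ⊆ g i) :
    g ∈ lev A w N t := by
  rw [mem_lev] at hf ⊢
  refine ⟨hg, hf.2.trans ?_⟩
  exact Finset.prod_le_prod (fun i _ => h0 _ (hf.1 i)) fun i _ => hm _ (hf.1 i) _ (hg i) (hfg i)

lemma lev_symm {A : Finset (Finset ℕ)} {w : Finset ℕ → ℝ} {N : ℕ} {t : ℝ} (x : ℕ) (i j : Fin N) :
    ((lev A w N t).filter fun f => x ∈ f i).card = ((lev A w N t).filter fun f => x ∈ f j).card := by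
  have key : ∀ i j : Fin N, ∀ f ∈ (lev A w N t).filter (fun f => x ∈ f i),
      (fun k => f (Equiv.swap i j k)) ∈ (lev A w N t).filter (fun f => x ∈ f j) := by
    intro i j f hf
    rw [Finset.mem_filter, mem_lev] at hf ⊢
    refine ⟨⟨fun k => hf.1.1 _, ?_⟩, ?_⟩
    · rw [Equiv.prod_comp (Equiv.swap i j) (fun k => w (f k))]
      exact hf.1.2
    · have h1 : (fun k => f (Equiv.swap i j k)) j = f i := by
        dsimp only
        rw [Equiv.swap_apply_right]
      rw [h1]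
      exact hf.2
  refine Finset.card_bij' (fun f _ => fun k => f (Equiv.swap i j k))
    (fun f _ => fun k => f (Equiv.swap i j k)) (fun f hf => key i j f hf) (fun f hf => ?_) ?_ ?_
  · have h := key j i f hf
    rw [Equiv.swap_comm j i] at h
    exact h
  · intro f _
    funext k
    simp only [Equiv.swap_apply_self]
  · intro f _
    funext k
    simp only [Equiv.swap_apply_self]

/-- The conjecture for the level sets. -/
lemma core {κ : ℝ} (hF : Freq κ) {A : Finset (Finset ℕ)} (hA : UC A) (hne : ∃ X ∈ A, X.Nonempty)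
    {w : Finset ℕ → ℝ} (h0 : ∀ S ∈ A, 0 ≤ w S) (hm : ∀ S ∈ A, ∀ T ∈ A, S ⊆ T → w S ≤ w T)
    {N : ℕ} (hN : 0 < N) (t : ℝ) (hL : (lev A w N t).Nonempty) :
    ∃ x ∈ A.sup id, κ * (lev A w N t).card * N ≤
      ∑ f ∈ lev A w N t, ∑ i : Fin N, if x ∈ f i then (1 : ℝ) else 0 := by
  obtain ⟨S0, hS0, hS0n⟩ := hne
  have hU : UC ((lev A w N t).image enc) := by
    intro X hX Y hY
    obtain ⟨f, hf, rfl⟩ := Finset.mem_image.1 hX
    obtain ⟨g, hg, rfl⟩ := Finset.mem_image.1 hY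
    rw [enc_union]
    refine Finset.mem_image_of_mem _ (lev_up h0 hm hf (fun i => hA _ ((mem_lev.1 hf).1 i) _
      ((mem_lev.1 hg).1 i)) fun i => Finset.subset_union_left)
  have hne2 : ∃ X ∈ (lev A w N t).image enc, X.Nonempty := by
    obtain ⟨f, hf⟩ := hL
    refine ⟨enc fun i => f i ∪ S0, Finset.mem_image_of_mem _ (lev_up h0 hm hf
      (fun i => hA _ ((mem_lev.1 hf).1 i) _ hS0) fun i => Finset.subset_union_left), ?_⟩
    obtain ⟨x, hx⟩ := hS0n
    exact ⟨Nat.pair 0 x, (pair_mem_enc _ ⟨0, hN⟩ x).2 (Finset.mem_union_right _ hx)⟩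
  obtain ⟨n, hn, hcard⟩ := hF _ hU hne2
  rw [Finset.mem_sup] at hn
  obtain ⟨X, hX, hnX⟩ := hn
  obtain ⟨f0, hf0, rfl⟩ := Finset.mem_image.1 hX
  obtain ⟨i, x, hx, rfl⟩ := (mem_enc f0 n).1 hnX
  refine ⟨x, Finset.mem_sup.2 ⟨f0 i, (mem_lev.1 hf0).1 i, hx⟩, ?_⟩
  rw [Finset.card_image_of_injective _ enc_inj, Finset.filter_image,
    Finset.card_image_of_injective _ enc_inj] at hcard
  have h1 : ((lev A w N t).filter fun f => Nat.pair i x ∈ enc f) =
      (lev A w N t).filter fun f => x ∈ f i :=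
    Finset.filter_congr fun f _ => pair_mem_enc f i x
  rw [h1] at hcard
  rw [Finset.sum_comm]
  have h2 : ∀ j : Fin N, κ * (lev A w N t).card ≤
      ∑ f ∈ lev A w N t, if x ∈ f j then (1 : ℝ) else 0 := by
    intro j
    rw [← Finset.sum_filter, Finset.sum_const, nsmul_eq_mul, mul_one, ← lev_symm x i j]
    exact hcard
  have h3 := Finset.sum_le_sum fun (j : Fin N) (_ : j ∈ Finset.univ) => h2 j
  rw [Finset.sum_const, Finset.card_univ, Fintype.card_fin, nsmul_eq_mul] at h3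
  refine le_trans (le_of_eq ?_) h3
  ring

/-- From counting to increasing weights. -/
theorem wts_of_freq {κ : ℝ} (hF : Freq κ) : Wts κ := by
  intro A hA hne w h0 hm
  by_contra hcon
  push Not at hcon
  have hV : (A.sup id).Nonempty := by
    obtain ⟨X, hX, x, hx⟩ := hne
    exact ⟨x, Finset.mem_sup.2 ⟨X, hX, hx⟩⟩
  obtain ⟨V, hVd⟩ : ∃ V, V = A.sup id := ⟨_, rfl⟩
  rw [← hVd] at hcon hV
  obtain ⟨M, hM⟩ : ∃ M, M = ∑ S ∈ A, w S := ⟨_, rfl⟩
  have hp0 : ∀ x, 0 ≤ ∑ S ∈ A.filter (fun S => x ∈ S), w S := fun x =>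
    Finset.sum_nonneg fun S hS => h0 S (Finset.mem_filter.1 hS).1
  have hM0 : 0 < M := by
    obtain ⟨x, hx⟩ := hV
    have h1 := hcon x hx
    have h2 : 0 ≤ M := by rw [hM]; exact Finset.sum_nonneg h0
    refine lt_of_le_of_ne h2 fun h3 => ?_
    rw [← hM, ← h3, mul_zero] at h1
    exact absurd (hp0 x) (not_le.2 h1)
  obtain ⟨u, hu⟩ : ∃ u : Finset ℕ → ℝ, u = fun S => w S / M := ⟨_, rfl⟩
  have hu0 : ∀ S ∈ A, 0 ≤ u S := fun S hS => by rw [hu]; exact div_nonneg (h0 S hS) hM0.le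
  have hum : ∀ S ∈ A, ∀ T ∈ A, S ⊆ T → u S ≤ u T := fun S hS T hT hST => by
    rw [hu]; exact div_le_div_of_nonneg_right (hm S hS T hT hST) hM0.le
  have hu1 : ∑ S ∈ A, u S = 1 := by
    rw [hu, ← Finset.sum_div, ← hM, div_self hM0.ne']
  obtain ⟨p, hp⟩ : ∃ p : ℕ → ℝ, p = fun x => ∑ S ∈ A, u S * if x ∈ S then 1 else 0 := ⟨_, rfl⟩
  have hpk : ∀ x ∈ V, p x < κ := by
    intro x hx
    have h1 := hcon x hx
    rw [← hM] at h1
    have h2 : p x = (∑ S ∈ A.filter (fun S => x ∈ S), w S) / M := by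
      rw [hp, hu, Finset.sum_filter, Finset.sum_div]
      refine Finset.sum_congr rfl fun S _ => ?_
      split_ifs
      · rw [mul_one]
      · rw [mul_zero, zero_div]
    rw [h2, div_lt_iff₀ hM0]
    exact h1
  have hp0' : ∀ x, 0 ≤ p x := fun x => by
    rw [hp]
    refine Finset.sum_nonneg fun S hS => mul_nonneg (hu0 S hS) ?_
    split_ifs <;> norm_num
  have hp1 : ∀ x, p x ≤ 1 := fun x => by
    have h1 : p x ≤ ∑ S ∈ A, u S := by
      rw [hp]
      refine Finset.sum_le_sum fun S hS => ?_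
      have := hu0 S hS
      split_ifs
      · rw [mul_one]
      · rw [mul_zero]; exact this
    rwa [hu1] at h1
  obtain ⟨x1, hx1, hmax⟩ := Finset.exists_max_image V p hV
  obtain ⟨ε, hε⟩ : ∃ ε, ε = (κ - p x1) / 2 := ⟨_, rfl⟩
  have hε0 : 0 < ε := by
    have := hpk x1 hx1
    rw [hε]
    linarith
  obtain ⟨N, hN⟩ := exists_nat_gt ((V.card : ℝ) / (4 * ε ^ 2))
  have hV0 : (0 : ℝ) ≤ (V.card : ℝ) / (4 * ε ^ 2) := by positivity
  have hNr : (0 : ℝ) < N := lt_of_le_of_lt hV0 hN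
  have hN0 : 0 < N := by exact_mod_cast hNr
  obtain ⟨F, hFd⟩ : ∃ F : ℕ → (Fin N → Finset ℕ) → ℝ,
      F = fun x f => (∑ i, if x ∈ f i then (1 : ℝ) else 0) / N := ⟨_, rfl⟩
  obtain ⟨G, hG⟩ : ∃ G : (Fin N → Finset ℕ) → ℝ,
      G = fun f => p x1 + ε - κ + (∑ x ∈ V, (F x f - p x) ^ 2) / (4 * ε) := ⟨_, rfl⟩
  have hGF : ∀ x ∈ V, ∀ f, F x f - κ ≤ G f := by
    intro x hx f
    have h1 : (F x f - p x) ^ 2 ≤ ∑ x ∈ V, (F x f - p x) ^ 2 :=
      Finset.single_le_sum (fun x _ => sq_nonneg (F x f - p x)) hx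
    have h2 : F x f - p x ≤ ε + (F x f - p x) ^ 2 / (4 * ε) := by
      have h3 : (F x f - p x) * (4 * ε) ≤ 4 * ε ^ 2 + (F x f - p x) ^ 2 := by
        nlinarith [sq_nonneg (F x f - p x - 2 * ε)]
      have h4 : ε + (F x f - p x) ^ 2 / (4 * ε) = (4 * ε ^ 2 + (F x f - p x) ^ 2) / (4 * ε) := by
        field_simp
      rw [h4, le_div_iff₀ (by positivity)]
      exact h3
    have h5 : (F x f - p x) ^ 2 / (4 * ε) ≤ (∑ x ∈ V, (F x f - p x) ^ 2) / (4 * ε) :=
      div_le_div_of_nonneg_right h1 (by positivity)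
    have h6 := hmax x hx
    rw [hG]
    dsimp only
    linarith
  have hlay : 0 ≤ ∑ f ∈ Fintype.piFinset (fun _ : Fin N => A), (∏ i, u (f i)) * G f := by
    refine layer _ G _ (fun f => ∏ i, u (f i)) (fun f hf => ?_) rfl fun t ht => ?_
    · exact Finset.prod_nonneg fun i _ => hu0 _ (Fintype.mem_piFinset.1 hf i)
    · rcases (lev A u N t).eq_empty_or_nonempty with hL | hL
      · have h1 : (Fintype.piFinset fun _ : Fin N => A).filter (fun f => t ≤ ∏ i, u (f i)) = ∅ := hL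
        rw [h1, Finset.sum_empty]
      · obtain ⟨x, hx, h1⟩ := core hF hA hne hu0 hum hN0 t hL
        rw [← hVd] at hx
        have h2 : 0 ≤ ∑ f ∈ lev A u N t, (F x f - κ) := by
          rw [Finset.sum_sub_distrib, Finset.sum_const, nsmul_eq_mul, hFd]
          dsimp only
          rw [← Finset.sum_div, sub_nonneg, le_div_iff₀ hNr]
          refine le_trans (le_of_eq ?_) h1
          ring
        exact h2.trans (Finset.sum_le_sum fun f _ => hGF x hx f)
  have hprod : ∑ f ∈ Fintype.piFinset (fun _ : Fin N => A), (∏ i, u (f i)) = 1 := by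
    rw [← Finset.prod_univ_sum (fun _ : Fin N => A) (fun _ S => u S)]
    simp [hu1]
  have hvar : ∀ x, ∑ f ∈ Fintype.piFinset (fun _ : Fin N => A),
      (∏ i, u (f i)) * (F x f - p x) ^ 2 ≤ 1 / N := by
    intro x
    have h2 : ∑ S ∈ A, u S * ((if x ∈ S then (1 : ℝ) else 0) - p x) = 0 := by
      simp only [mul_sub]
      rw [Finset.sum_sub_distrib, ← Finset.sum_mul, hu1, one_mul]
      rw [hp]
      exact sub_self _
    have h3 := var_prod N A u (fun S => (if x ∈ S then (1 : ℝ) else 0) - p x) hu1 h2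
    have h4 : ∀ f : Fin N → Finset ℕ, (∏ i, u (f i)) * (F x f - p x) ^ 2 =
        (∏ i, u (f i)) * (∑ i, ((if x ∈ f i then (1 : ℝ) else 0) - p x)) ^ 2 / (N : ℝ) ^ 2 := by
      intro f
      rw [Finset.sum_sub_distrib, Finset.sum_const, Finset.card_univ, Fintype.card_fin,
        nsmul_eq_mul, hFd]
      dsimp only
      field_simp
    rw [Finset.sum_congr rfl fun f _ => h4 f, ← Finset.sum_div, h3]
    have h5 : ∑ S ∈ A, u S * ((if x ∈ S then (1 : ℝ) else 0) - p x) ^ 2 ≤ 1 := by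
      refine le_of_le_of_eq (Finset.sum_le_sum fun S hS => ?_) hu1
      have h6 : ((if x ∈ S then (1 : ℝ) else 0) - p x) ^ 2 ≤ 1 := by
        have h7 := hp0' x
        have h8 := hp1 x
        split_ifs
        · nlinarith
        · nlinarith
      have h9 := mul_le_mul_of_nonneg_left h6 (hu0 S hS)
      linarith
    rw [div_le_div_iff₀ (by positivity) hNr]
    nlinarith
  have htot : ∑ f ∈ Fintype.piFinset (fun _ : Fin N => A), (∏ i, u (f i)) * G f ≤
      (p x1 + ε - κ) + (V.card * (1 / N)) / (4 * ε) := by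
    have h1 : ∀ f : Fin N → Finset ℕ, (∏ i, u (f i)) * G f = (∏ i, u (f i)) * (p x1 + ε - κ) +
        (∑ x ∈ V, (∏ i, u (f i)) * (F x f - p x) ^ 2) / (4 * ε) := by
      intro f
      rw [hG, ← Finset.mul_sum]
      ring
    rw [Finset.sum_congr rfl fun f _ => h1 f, Finset.sum_add_distrib, ← Finset.sum_mul, hprod,
      one_mul, ← Finset.sum_div, Finset.sum_comm]
    have h2 : ∑ x ∈ V, ∑ f ∈ Fintype.piFinset (fun _ : Fin N => A),
        (∏ i, u (f i)) * (F x f - p x) ^ 2 ≤ V.card * (1 / N) := by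
      refine (Finset.sum_le_sum fun x _ => hvar x).trans (le_of_eq ?_)
      rw [Finset.sum_const, nsmul_eq_mul]
    have h3 := div_le_div_of_nonneg_right h2 (by positivity : (0 : ℝ) ≤ 4 * ε)
    linarith
  have h1 : (V.card * (1 / (N : ℝ))) / (4 * ε) < ε := by
    rw [div_lt_iff₀ (by positivity)] at hN
    rw [div_lt_iff₀ (by positivity), mul_one_div, div_lt_iff₀ hNr]
    nlinarith
  have h2 : p x1 + ε - κ = -ε := by
    rw [hε]
    ring
  rw [h2] at htot
  linarith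

end Pool.Agent.H73.EC
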